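import Pool.Agent.Helper69.TPF.St3
import Pool.Agent.Helper6.TS.Data

/-!
# Project TPF, module NHX: the kernel of the map to a sector

`theorem cNHX (hop : St_HOP) : St_NHX`.
-/

set_option autoImplicit false

open scoped commutatorElement

namespace Pool.Agent.Helper58.TPF

open Pool.Agent.Helper6.TS
open Pool.Agent.Helper69.TPF

/-- if the pushout of two epimorphisms is free of rank `0` the two kernels generate the group -/
theorem sup_ker_eq_top {G H : Type} [Group G] [Group H] {a b : G →* H} (h : FreePushout a b 0) :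
    a.ker ⊔ b.ker = ⊤ := by
  obtain ⟨e⟩ := h
  rw [Subgroup.eq_top_iff']
  intro x
  have h1 : e (QuotientGroup.mk x) = e 1 := Subsingleton.elim _ _
  exact (QuotientGroup.eq_one_iff x).1 (e.injective h1)

/-- the expansion of an element of the kernel of `f` in an adapted symplectic system: it is congruent modulo
commutators to a product of powers of the `κ s` -/
theorem expand_ker {g : ℕ} (f : Surf g →* FreeGroup (Fin g)) (hf : Function.Surjective f)
    {κ δ : Fin g → Surf g} (hSB : SB κ δ) (hκ : ∀ s, f (κ s) = 1) {x : Surf g} (hx : f x = 1) :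
    ((List.finRange g).map fun y => κ y ^ om x (δ y)).prod⁻¹ * x ∈
      ⁅(⊤ : Subgroup (Surf g)), (⊤ : Subgroup (Surf g))⁆ := by
  have h1 : ∀ s, cd ((List.finRange g).map fun y => κ y ^ om x (δ y)).prod s = cd x s := by
    intro s
    rw [cd_prod, expand hSB x s, ← Fin.sum_univ_def]
    refine Finset.sum_congr rfl fun y _ => ?_
    rw [cd_zpow, lagrangian f hf (hκ y) hx]
    ring
  exact QuotientGroup.eq.1 (mk_eq_of_cd h1)

/-- the main step, with the indices in general position -/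
theorem nhx_core (hop : St_HOP) {g : ℕ} {J : Type} (f0 fi fj : Surf g →* FreeGroup (Fin g))
    (s0 : Function.Surjective f0) (si : Function.Surjective fi)
    (p : Surf g →* FreeGroup J) (hp : Function.Surjective p) (hker : p.ker = f0.ker ⊔ fi.ker)
    (hij : fi.ker ⊔ fj.ker = ⊤) {κ δ : Fin g → Surf g} (hSB : SB κ δ) (hκ0 : ∀ s, f0 (κ s) = 1)
    (hκ : ∀ s, fi (κ s) = 1 ∨ fj (κ s) = 1) {x : Surf g} (hx : f0 x = 1) :
    ∃ y, f0 y = 1 ∧ fj y = 1 ∧ fi y = fi x := by
  obtain ⟨a, ha⟩ := factor fi si p (by rw [hker]; exact le_sup_right)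
  have ha' : ∀ z, a (fi z) = p z := fun z => by rw [← ha]; rfl
  have hasurj : Function.Surjective a := by
    intro w
    obtain ⟨z, rfl⟩ := hp w
    exact ⟨fi z, ha' z⟩
  set M : Subgroup (FreeGroup (Fin g)) := (f0.ker ⊓ fj.ker).map fi with hM
  have hnormal : (f0.ker ⊓ fj.ker).Normal := inferInstance
  -- the kernel of `a` is the image of the kernel of `f0`
  have hak : ∀ w, a w = 1 → ∃ z, f0 z = 1 ∧ fi z = w := by
    intro w hw
    obtain ⟨z, rfl⟩ := si w
    rw [ha', ← MonoidHom.mem_ker, hker] at hw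
    obtain ⟨z0, hz0, zi, hzi, rfl⟩ := Subgroup.mem_sup_of_normal_right.1 hw
    refine ⟨z0, hz0, ?_⟩
    rw [map_mul, MonoidHom.mem_ker.1 hzi, mul_one]
  have hka : ∀ z, f0 z = 1 → a (fi z) = 1 := by
    intro z hz
    rw [ha', ← MonoidHom.mem_ker, hker]
    exact (le_sup_left : f0.ker ≤ f0.ker ⊔ fi.ker) hz
  -- (1)
  have h1 : ⁅a.ker, (⊤ : Subgroup (FreeGroup (Fin g)))⁆ ≤ M := by
    rw [Subgroup.commutator_le]
    intro n hn w _
    obtain ⟨z, hz, rfl⟩ := hak n hn
    obtain ⟨y, rfl⟩ := si w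
    have hy : y ∈ fi.ker ⊔ fj.ker := by rw [hij]; exact Subgroup.mem_top y
    obtain ⟨yi, hyi, yj, hyj, rfl⟩ := Subgroup.mem_sup_of_normal_right.1 hy
    have e1 : fi (yi * yj) = fi yj := by rw [map_mul, MonoidHom.mem_ker.1 hyi, one_mul]
    rw [e1, ← map_commutatorElement]
    refine ⟨⁅z, yj⁆, ⟨?_, ?_⟩, rfl⟩
    · show f0 ⁅z, yj⁆ = 1
      rw [map_commutatorElement, hz, commutatorElement_one_left]
    · show fj ⁅z, yj⁆ = 1
      rw [map_commutatorElement, MonoidHom.mem_ker.1 hyj, commutatorElement_one_right]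
  -- (2)
  have h2 := (hop (FreeGroup (Fin g)) J a hasurj).trans h1
  -- (3)
  set z := ((List.finRange g).map fun y => κ y ^ om x (δ y)).prod with hz
  have h3 : z⁻¹ * x ∈ ⁅(⊤ : Subgroup (Surf g)), (⊤ : Subgroup (Surf g))⁆ := expand_ker f0 s0 hSB hκ0 hx
  have hzM : fi z ∈ M := by
    rw [hz, map_list_prod, List.map_map]
    apply Subgroup.list_prod_mem
    intro w hw
    rw [List.mem_map] at hw
    obtain ⟨s, -, rfl⟩ := hw
    show fi (κ s ^ om x (δ s)) ∈ M
    rw [map_zpow]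
    apply Subgroup.zpow_mem
    rcases hκ s with h | h
    · rw [h]; exact M.one_mem
    · exact ⟨κ s, ⟨hκ0 s, h⟩, rfl⟩
  have hz0 : f0 z = 1 := by
    rw [hz, map_list_prod, List.map_map]
    apply List.prod_eq_one
    intro w hw
    rw [List.mem_map] at hw
    obtain ⟨s, -, rfl⟩ := hw
    show f0 (κ s ^ om x (δ s)) = 1
    rw [map_zpow, hκ0, one_zpow]
  have hc : fi (z⁻¹ * x) ∈ ⁅(⊤ : Subgroup (FreeGroup (Fin g))), (⊤ : Subgroup (FreeGroup (Fin g)))⁆ := by
    have h4 : (⁅(⊤ : Subgroup (Surf g)), (⊤ : Subgroup (Surf g))⁆).map fi ≤ ⁅(⊤ : Subgroup (FreeGroup (Fin g))), (⊤ : Subgroup (FreeGroup (Fin g)))⁆ := by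
      rw [Subgroup.map_commutator]
      exact Subgroup.commutator_mono le_top le_top
    exact h4 ⟨_, h3, rfl⟩
  have hcN : a (fi (z⁻¹ * x)) = 1 := hka _ (by rw [map_mul, map_inv, hz0, hx, inv_one, one_mul])
  have hcM : fi (z⁻¹ * x) ∈ M := h2 ⟨hcN, hc⟩
  have hxM : fi x ∈ M := by
    have h5 := M.mul_mem hzM hcM
    rwa [← map_mul, mul_inv_cancel_left] at h5
  obtain ⟨y, ⟨hy0, hyj⟩, hyx⟩ := hxM
  exact ⟨y, hy0, hyj, hyx⟩

/-- **NHX** (the kernel of the map to a sector) -/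
theorem cNHX (hop : St_HOP) : St_NHX := by
  intro g k f hf hk0 t ht i j hij x hx
  have hT : IsTrisection g k f := ⟨hf.surj, hf.sector⟩
  have ht' : ∀ l, Fintype.card {i // t i = l} = k l := fun l => congrFun ht l
  have h0 : FreePushout (f 1) (f 2) 0 := hk0 ▸ hf.sector 0
  have h12 : (f 1).ker ⊔ (f 2).ker = ⊤ := sup_ker_eq_top h0
  have hperf : (f 0).ker ⊔ (f 1).ker ⊔ (f 2).ker ⊔ gm (Surf g) 1 = ⊤ := by
    rw [sup_assoc (f 0).ker, h12]
    simp
  obtain ⟨κ, δ, hKer, hSB⟩ := data hT t ht' hperf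
  have hne : ∀ s, t s ≠ 0 := by
    intro s hs
    have h1 : Fintype.card {i // t i = 0} = 0 := by rw [ht' 0, hk0]
    exact (Fintype.card_eq_zero_iff.1 h1).elim ⟨s, hs⟩
  have hκ0 : ∀ s, f 0 (κ s) = 1 := fun s => hKer.1 s 0 (hne s).symm
  obtain ⟨p, hp, hpk⟩ := sector_map hT t ht' j
  rcases hij with ⟨rfl, rfl⟩ | ⟨rfl, rfl⟩
  · refine nhx_core hop (f 0) (f 1) (f 2) (hf.surj 0) (hf.surj 1) p hp hpk h12 hSB hκ0 (fun s => ?_) hx
    have h2 := hne s
    by_cases h : t s = 1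
    · right
      exact hKer.1 s 2 (by rw [h]; decide)
    · left
      exact hKer.1 s 1 (Ne.symm h)
  · have hpk' : p.ker = (f 0).ker ⊔ (f 2).ker := by
      rw [hpk]
      exact sup_comm _ _
    refine nhx_core hop (f 0) (f 2) (f 1) (hf.surj 0) (hf.surj 2) p hp hpk' (by rw [sup_comm]; exact h12)
      hSB hκ0 (fun s => ?_) hx
    by_cases h : t s = 2
    · right
      exact hKer.1 s 1 (by rw [h]; decide)
    · left
      exact hKer.1 s 2 (Ne.symm h)

end Pool.Agent.Helper58.TPF
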